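import Mathlib
import Pool.Agent.R243.RT.Six

set_option autoImplicit false

/-!
# Radial approaches with radii decreasing in the index fail almost everywhere

A zero-free bounded analytic `f` on the infinite torus such that at almost every point `θ` there is
a radial approach, with radii decreasing in the coordinate and finitely many nonzero radii at each
step, along which the values of `f` tend to `e^{-i} f(θ)`, which differs from `f(θ)`.
-/

namespace Pool.Agent.Results.MP_919c6d_an.DecreasingRadiiFail

open Filter Topology MeasureTheory Set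
open Pool.Agent.R243.RT

theorem result : ∃ f : (ℕ → UnitAddCircle) → ℂ, IsHInf f ∧ (∀ θ, f θ ≠ 0) ∧
    ∀ᵐ θ ∂(Measure.infinitePi fun _ : ℕ => (AddCircle.haarAddCircle : Measure UnitAddCircle)),
      ∃ R : ℕ → ℕ → ℝ,
        (∀ k n, 0 ≤ R k n ∧ R k n < 1) ∧
        (∀ k, (Function.support (R k)).Finite) ∧
        (∀ n, Monotone fun k => R k n) ∧
        (∀ n, Tendsto (fun k => R k n) atTop (𝓝 1)) ∧
        (∀ k, Antitone (R k)) ∧
        Tendsto (fun k => poissonExt f (R k) θ) atTop (𝓝 (Complex.exp (-Complex.I) * f θ)) ∧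
        ¬ Tendsto (fun k => poissonExt f (R k) θ) atTop (𝓝 (f θ)) := by
  refine ⟨ff, ff_hinf, ff_ne, ?_⟩
  filter_upwards [main_dep.2] with θ hθ
  obtain ⟨R, h1, h2, h3, h4, h5, h6⟩ := hθ
  exact ⟨R, h1, h2, h3, h4, h5, h6, fun h => exp_ne θ (tendsto_nhds_unique h6 h)⟩

end Pool.Agent.Results.MP_919c6d_an.DecreasingRadiiFail
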